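import Pool.Agent.H65.AP.Targets

/-!
# Module JNO: points at the end of a push map are joined to the outside
-/

set_option autoImplicit false

open MeasureTheory Set Filter Topology Metric
open scoped ENNReal NNReal ContDiff RealInnerProductSpace

namespace Pool.Agent.H76.AP

open Pool.Agent.H94.IC Pool.Agent.H94.AC Pool.Agent.H92.CK Pool.Agent.H65.AP

theorem pf_JNO (hCNX : T_CNX) : T_JNO := by
  intro Ω S r r' H x hΩ hS hr' hr hH hx
  have hSu : IsCrack univ S :=
    ⟨hS.cpt, hS.conn, subset_univ _, hS.chart, hS.orient, hS.edge⟩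
  have hconn : IsConnected (univ \ S) := hCNX univ S isOpen_univ isConnected_univ hSu
  have hSc : univ \ S = Sᶜ := (Set.compl_eq_univ_diff S).symm
  rw [hSc] at hconn
  have hcont : ContinuousOn (fun y => H 1 y) Sᶜ := by
    have h1 : ContinuousOn (fun y : E => ((1 : ℝ), y)) Sᶜ :=
      (continuous_const.prodMk continuous_id).continuousOn
    exact hH.cont.comp h1 fun y hy => ⟨⟨zero_le_one, le_rfl⟩, hy⟩
  have hM : IsPreconnected ((fun y => H 1 y) '' Sᶜ) := hconn.isPreconnected.image _ hcont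
  have hMsub : (fun y => H 1 y) '' Sᶜ ⊆ {y | r' < infDist y S} := by
    rintro _ ⟨y, hy, rfl⟩
    exact lt_of_lt_of_le hr (hH.far y hy)
  have hxM : H 1 x ∈ (fun y => H 1 y) '' Sᶜ := ⟨x, hx, rfl⟩
  have hsub := hM.subset_connectedComponentIn hxM hMsub
  obtain ⟨R, hR⟩ := hH.inf
  obtain ⟨B, hB⟩ := isBounded_iff_forall_norm_le.1 (isBounded_closure_iff.2 hΩ)
  obtain ⟨C, hC⟩ := isBounded_iff_forall_norm_le.1 hS.cpt.isBounded
  obtain ⟨y, hy⟩ := NormedSpace.exists_lt_norm ℝ E (max R (max B C))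
  have hyR : R ≤ ‖y‖ := (le_max_left _ _).trans hy.le
  have hyB : B < ‖y‖ := ((le_max_left _ _).trans (le_max_right _ _)).trans_lt hy
  have hyC : C < ‖y‖ := ((le_max_right _ _).trans (le_max_right _ _)).trans_lt hy
  have hyS : y ∉ S := fun h => absurd (hC y h) (not_le.2 hyC)
  have hyΩ : y ∉ closure Ω := fun h => absurd (hB y h) (not_le.2 hyB)
  have hHy : H 1 y = y := hR y hyR 1 ⟨zero_le_one, le_rfl⟩
  exact ⟨y, hsub ⟨y, hyS, hHy⟩, hyΩ⟩

end Pool.Agent.H76.AP
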