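import Pool.Agent.H65.AP.Targets

/-!
# Module WKU: weak limits of bounded sequences of square integrable fields along ultrafilters
-/

set_option autoImplicit false

open MeasureTheory Set Filter Topology Metric
open scoped ENNReal NNReal ContDiff RealInnerProductSpace

namespace Pool.Agent.H76.AP

open Pool.Agent.H94.IC Pool.Agent.H94.AC Pool.Agent.H92.CK Pool.Agent.H65.AP

theorem inner_toLp {Ω : Set E} {f g : E → E} (hf : MemLp f 2 (volume.restrict Ω))
    (hg : MemLp g 2 (volume.restrict Ω)) :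
    inner ℝ (hf.toLp f) (hg.toLp g) = ∫ y in Ω, ⟪f y, g y⟫ := by
  rw [MeasureTheory.L2.inner_def]
  apply integral_congr_ae
  filter_upwards [hf.coeFn_toLp, hg.coeFn_toLp] with y h1 h2
  rw [h1, h2]

theorem pf_WKU : T_WKU := by
  intro Ω P C U hΩ hP hC
  let p : ℕ → Lp E 2 (volume.restrict Ω) := fun n => (hP n).toLp (P n)
  have hn : ∀ n, ‖p n‖ ≤ Real.sqrt C := by
    intro n
    apply Real.le_sqrt_of_sq_le
    rw [← real_inner_self_eq_norm_sq]
    refine (inner_toLp (hP n) (hP n)).trans_le ?_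
    refine le_trans (le_of_eq ?_) (hC n)
    apply integral_congr_ae
    filter_upwards with y
    exact real_inner_self_eq_norm_sq _
  let f : ℕ → WeakDual ℝ (Lp E 2 (volume.restrict Ω)) := fun n =>
    StrongDual.toWeakDual (InnerProductSpace.toDual ℝ _ (p n))
  have hK := WeakDual.isCompact_closedBall (𝕜 := ℝ)
    (0 : StrongDual ℝ (Lp E 2 (volume.restrict Ω))) (Real.sqrt C)
  obtain ⟨L, -, hle⟩ := hK.ultrafilter_le_nhds (U.map f) (by
    rw [le_principal_iff]
    refine mem_map.2 (Filter.univ_mem' fun n => ?_)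
    change InnerProductSpace.toDual ℝ _ (p n) ∈ closedBall _ _
    rw [mem_closedBall, dist_zero_right, LinearIsometryEquiv.norm_map]
    exact hn n)
  let q : Lp E 2 (volume.restrict Ω) :=
    (InnerProductSpace.toDual ℝ _).symm (WeakDual.toStrongDual L)
  have hq : ∀ g : Lp E 2 (volume.restrict Ω), inner ℝ q g = L g := fun g =>
    InnerProductSpace.toDual_symm_apply
  refine ⟨q, Lp.memLp q, fun g hg => ?_⟩
  have h1 : ∫ y in Ω, ⟪q y, g y⟫ = L (hg.toLp g) := by
    rw [← hq, ← inner_toLp (Lp.memLp q) hg, Lp.toLp_coeFn]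
  have h2 : ∀ n, ∫ y in Ω, ⟪P n y, g y⟫ = f n (hg.toLp g) := by
    intro n
    rw [← inner_toLp (hP n) hg]
    rfl
  rw [h1]
  simp_rw [h2]
  have hc : Continuous fun l : WeakDual ℝ (Lp E 2 (volume.restrict Ω)) => l (hg.toLp g) :=
    WeakDual.eval_continuous _
  exact (hc.tendsto L).comp hle

end Pool.Agent.H76.AP
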